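import Pool.Agent.H37.CNT.Stmts

/-! Row PU1 of the board `cnt`: the field `L(s)`, `s ^ m = t`, and its place. -/

set_option autoImplicit false
set_option linter.unusedSectionVars false
set_option linter.style.haveILetI false

namespace Pool.CND

open Finset Polynomial

namespace PU1

section gm

variable {k L : Type} [Field k] [Field L] [Algebra k L] (P : Place k L) (t : L) (m : ℕ)

/-- `a s ^ i` has value at least `n` -/
def Gm (i : ℕ) (n : ℤ) (a : L) : Prop := a = 0 ∨ n ≤ m * P.ord a + i * P.ord t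

variable {P t m}

theorem gm_zero (i : ℕ) (n : ℤ) : Gm P t m i n 0 := Or.inl rfl

theorem gm_mono {i : ℕ} {n n' : ℤ} {a : L} (h : Gm P t m i n a) (hn : n' ≤ n) :
    Gm P t m i n' a := h.imp id (fun h => hn.trans h)

theorem gm_add {i : ℕ} {n : ℤ} {a a' : L} (h : Gm P t m i n a) (h' : Gm P t m i n a') :
    Gm P t m i n (a + a') := by
  by_cases ha : a = 0
  · rw [ha, zero_add]; exact h'
  by_cases ha' : a' = 0
  · rw [ha', add_zero]; exact h
  by_cases hs : a + a' = 0
  · exact Or.inl hs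
  refine Or.inr ?_
  have h1 := h.resolve_left ha
  have h2 := h'.resolve_left ha'
  have h3 := P.ord_add a a' ha ha' hs
  have h4 : (0 : ℤ) ≤ m := Int.natCast_nonneg m
  rcases min_le_iff.1 h3 with h5 | h5
  · nlinarith [mul_le_mul_of_nonneg_left h5 h4]
  · nlinarith [mul_le_mul_of_nonneg_left h5 h4]

theorem gm_neg {i : ℕ} {n : ℤ} {a : L} (h : Gm P t m i n a) : Gm P t m i n (-a) := by
  rcases h with h | h
  · exact Or.inl (by rw [h, neg_zero])
  · exact Or.inr (by rw [P.ord_neg]; exact h)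

theorem gm_mul {i i' : ℕ} {n n' : ℤ} {a a' : L} (h : Gm P t m i n a) (h' : Gm P t m i' n' a') :
    Gm P t m (i + i') (n + n') (a * a') := by
  by_cases ha : a = 0
  · exact Or.inl (by rw [ha, zero_mul])
  by_cases ha' : a' = 0
  · exact Or.inl (by rw [ha', mul_zero])
  refine Or.inr ?_
  rw [P.ord_mul a a' ha ha']
  have h1 := h.resolve_left ha
  have h2 := h'.resolve_left ha'
  push_cast
  linarith

theorem gm_red (ht : t ≠ 0) {i : ℕ} {n : ℤ} {a : L} (h : Gm P t m i n a) (hi : m ≤ i) :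
    Gm P t m (i - m) n (a * t) := by
  by_cases ha : a = 0
  · exact Or.inl (by rw [ha, zero_mul])
  refine Or.inr ?_
  rw [P.ord_mul a t ha ht]
  have h1 := h.resolve_left ha
  push_cast [hi]
  linarith

end gm

section main

variable {k L R : Type} [Field k] [Field L] [Algebra k L] [CommRing R] [Algebra L R]
  (P : Place k L) (t : L) {m : ℕ} (s : R) (b : Module.Basis (Fin m) L R)

/-- all coefficients of `z` have value at least `n` -/
def W (n : ℤ) (z : R) : Prop := ∀ i : Fin m, Gm P t m i n (b.repr z i)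

/-- `z` has the leading term `a s ^ i` -/
def LT (n : ℤ) (z : R) (i : Fin m) (a : L) : Prop :=
  a ≠ 0 ∧ (m : ℤ) * P.ord a + (i : ℕ) * P.ord t = n ∧ W P t b (n + 1) (z - algebraMap L R a * s ^ (i : ℕ))

variable {P t s b}

theorem w_zero (n : ℤ) : W P t b n 0 := fun i => by
  rw [map_zero]; exact gm_zero _ _

theorem w_add {n : ℤ} {z z' : R} (h : W P t b n z) (h' : W P t b n z') : W P t b n (z + z') :=
  fun i => by
    rw [map_add]; exact gm_add (h i) (h' i)

theorem w_neg {n : ℤ} {z : R} (h : W P t b n z) : W P t b n (-z) := fun i => by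
  rw [map_neg]; exact gm_neg (h i)

theorem w_sub {n : ℤ} {z z' : R} (h : W P t b n z) (h' : W P t b n z') : W P t b n (z - z') := by
  rw [sub_eq_add_neg]; exact w_add h (w_neg h')

theorem w_mono {n n' : ℤ} {z : R} (h : W P t b n z) (hn : n' ≤ n) : W P t b n' z :=
  fun i => gm_mono (h i) hn

theorem w_sum {ι : Type} (S : Finset ι) (f : ι → R) (n : ℤ) (h : ∀ i ∈ S, W P t b n (f i)) :
    W P t b n (∑ i ∈ S, f i) := by
  classical
  induction S using Finset.induction_on with
  | empty => rw [Finset.sum_empty]; exact w_zero n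
  | insert a S ha ih =>
    rw [Finset.sum_insert ha]
    exact w_add (h a (mem_insert_self a S)) (ih (fun i hi => h i (mem_insert_of_mem hi)))

variable (hb : ∀ i, b i = s ^ (i : ℕ))

include hb

theorem repr_mono (a : L) (i : Fin m) :
    b.repr (algebraMap L R a * s ^ (i : ℕ)) = Finsupp.single i a := by
  rw [← hb, ← Algebra.smul_def, map_smul, b.repr_self, Finsupp.smul_single, smul_eq_mul, mul_one]

theorem w_mono1 {n : ℤ} {a : L} {i : ℕ} (hi : i < m) (h : Gm P t m i n a) :
    W P t b n (algebraMap L R a * s ^ i) := by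
  intro i'
  have h1 := repr_mono hb a ⟨i, hi⟩
  rw [Fin.val_mk] at h1
  rw [h1, Finsupp.single_apply]
  split_ifs with h2
  · rw [← h2]; exact h
  · exact gm_zero _ _

theorem expand (z : R) : z = ∑ i, algebraMap L R (b.repr z i) * s ^ (i : ℕ) := by
  conv_lhs => rw [← b.sum_repr z]
  refine sum_congr rfl fun i _ => ?_
  rw [Algebra.smul_def, hb]

variable (hs : s ^ m = algebraMap L R t) (ht : t ≠ 0)

include hs ht

theorem w_mono2 {n : ℤ} {a : L} {i : ℕ} (hi : i < 2 * m) (h : Gm P t m i n a) :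
    W P t b n (algebraMap L R a * s ^ i) := by
  by_cases h1 : i < m
  · exact w_mono1 hb h1 h
  rw [not_lt] at h1
  have h2 : algebraMap L R a * s ^ i = algebraMap L R (a * t) * s ^ (i - m) := by
    rw [map_mul, ← hs, mul_assoc, ← pow_add, Nat.add_sub_cancel' h1]
  rw [h2]
  exact w_mono1 hb (by omega) (gm_red ht h h1)

theorem w_mul {n n' : ℤ} {z z' : R} (h : W P t b n z) (h' : W P t b n' z') :
    W P t b (n + n') (z * z') := by
  rw [expand hb z, expand hb z', Finset.sum_mul_sum]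
  refine w_sum _ _ _ fun i _ => w_sum _ _ _ fun i' _ => ?_
  have h1 : algebraMap L R (b.repr z i) * s ^ (i : ℕ) * (algebraMap L R (b.repr z' i') * s ^ (i' : ℕ)) =
      algebraMap L R (b.repr z i * b.repr z' i') * s ^ ((i : ℕ) + i') := by
    rw [map_mul, pow_add]; ring
  rw [h1]
  exact w_mono2 hb hs ht (by have := i.2; have := i'.2; omega) (gm_mul (h i) (h' i'))

omit hs ht in
theorem lt_coeff {n : ℤ} {z : R} {i : Fin m} {a : L} (h : LT P t s b n z i a) :
    b.repr z i ≠ 0 ∧ (m : ℤ) * P.ord (b.repr z i) + (i : ℕ) * P.ord t = n := by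
  obtain ⟨h0, h1, h2⟩ := h
  have h3 := h2 i
  rw [map_sub, repr_mono hb, Finsupp.sub_apply, Finsupp.single_eq_same] at h3
  have hm : (0 : ℤ) < m := by
    have := i.2
    omega
  have h4 : P.Ge (b.repr z i - a) (P.ord a + 1) := by
    rcases h3 with h3 | h3
    · exact Or.inl h3
    · refine Or.inr ?_
      have h5 : (m : ℤ) * P.ord a < m * P.ord (b.repr z i - a) := by linarith
      have h6 := lt_of_mul_lt_mul_left h5 hm.le
      omega
  have h5 := P.ord_add_of_lt h0 h4
  rw [add_sub_cancel] at h5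
  exact ⟨h5.1, by rw [h5.2]; exact h1⟩

omit hs ht in
theorem lt_ne {n : ℤ} {z : R} {i : Fin m} {a : L} (h : LT P t s b n z i a) : z ≠ 0 := by
  intro hz
  have h1 := (lt_coeff hb h).1
  rw [hz, map_zero] at h1
  exact h1 rfl

omit hs ht in
theorem lt_w {n : ℤ} {z : R} {i : Fin m} {a : L} (h : LT P t s b n z i a) : W P t b n z := by
  have h1 := w_mono h.2.2 (le_of_lt (lt_add_one n))
  have h2 : W P t b n (algebraMap L R a * s ^ (i : ℕ)) :=
    w_mono1 hb i.2 (Or.inr h.2.1.ge)
  have h3 := w_add h1 h2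
  rwa [sub_add_cancel] at h3

omit hs ht in
theorem lt_le {n n' : ℤ} {z : R} {i : Fin m} {a : L} (h : LT P t s b n z i a)
    (h' : W P t b n' z) : n' ≤ n := by
  obtain ⟨h1, h2⟩ := lt_coeff hb h
  rw [← h2]
  exact (h' i).resolve_left h1

omit hs ht in
theorem lt_unique {n n' : ℤ} {z : R} {i i' : Fin m} {a a' : L} (h : LT P t s b n z i a)
    (h' : LT P t s b n' z i' a') : n = n' :=
  le_antisymm (lt_le hb h' (lt_w hb h)) (lt_le hb h (lt_w hb h'))

omit hs ht in
theorem lt_exists (hc : IsCoprime (P.ord t) (m : ℤ)) {z : R} (hz : z ≠ 0) :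
    ∃ (n : ℤ) (i : Fin m) (a : L), LT P t s b n z i a := by
  classical
  have h1 : (univ.filter fun i : Fin m => b.repr z i ≠ 0).Nonempty := by
    by_contra h
    rw [Finset.not_nonempty_iff_eq_empty, Finset.filter_eq_empty_iff] at h
    apply hz
    have : b.repr z = 0 := by
      ext i
      have := h (mem_univ i)
      simpa using this
    simpa using this
  obtain ⟨i, hi, hmin⟩ := Finset.exists_min_image _
    (fun i : Fin m => (m : ℤ) * P.ord (b.repr z i) + (i : ℕ) * P.ord t) h1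
  rw [mem_filter] at hi
  refine ⟨_, i, b.repr z i, hi.2, rfl, fun i' => ?_⟩
  rw [map_sub, repr_mono hb, Finsupp.sub_apply]
  by_cases hii : i = i'
  · rw [← hii, Finsupp.single_eq_same, sub_self]
    exact gm_zero _ _
  rw [Finsupp.single_eq_of_ne (Ne.symm hii), sub_zero]
  by_cases h0 : b.repr z i' = 0
  · exact Or.inl h0
  refine Or.inr ?_
  have h2 := hmin i' (mem_filter.2 ⟨mem_univ _, h0⟩)
  rcases h2.lt_or_eq with h3 | h3
  · exact h3
  exfalso
  have h4 : (m : ℤ) ∣ (((i' : ℕ) : ℤ) - (i : ℕ)) * P.ord t :=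
    ⟨P.ord (b.repr z i) - P.ord (b.repr z i'), by linear_combination -h3⟩
  have h5 : (m : ℤ) ∣ ((i' : ℕ) : ℤ) - (i : ℕ) := hc.symm.dvd_of_dvd_mul_right h4
  have h6 : |((i' : ℕ) : ℤ) - (i : ℕ)| < m := by
    have := i.2
    have := i'.2
    rw [abs_lt]
    constructor <;> omega
  have h7 := Int.eq_zero_of_abs_lt_dvd h5 h6
  apply hii
  ext
  omega

theorem lt_mul {n n' : ℤ} {z z' : R} {i i' : Fin m} {a a' : L} (h : LT P t s b n z i a)
    (h' : LT P t s b n' z' i' a') :
    ∃ (i'' : Fin m) (a'' : L), LT P t s b (n + n') (z * z') i'' a'' := by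
  obtain ⟨h0, h1, h2⟩ := h
  obtain ⟨h0', h1', h2'⟩ := h'
  have hx : W P t b n (algebraMap L R a * s ^ (i : ℕ)) := w_mono1 hb i.2 (Or.inr h1.ge)
  have hx' : W P t b n' (algebraMap L R a' * s ^ (i' : ℕ)) := w_mono1 hb i'.2 (Or.inr h1'.ge)
  obtain ⟨x, hxe⟩ : ∃ x, x = algebraMap L R a * s ^ (i : ℕ) := ⟨_, rfl⟩
  obtain ⟨x', hxe'⟩ : ∃ x', x' = algebraMap L R a' * s ^ (i' : ℕ) := ⟨_, rfl⟩
  rw [← hxe] at hx h2
  rw [← hxe'] at hx' h2'
  have hw : W P t b (n + n' + 1) (z * z' - x * x') := by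
    have e1 : z * z' - x * x' = x * (z' - x') + (z - x) * x' + (z - x) * (z' - x') := by ring
    rw [e1]
    refine w_add (w_add ?_ ?_) ?_
    · have := w_mul hb hs ht hx h2'
      rwa [← add_assoc] at this
    · have := w_mul hb hs ht h2 hx'
      exact w_mono this (by omega)
    · have := w_mul hb hs ht h2 h2'
      exact w_mono this (by omega)
  have hxx : x * x' = algebraMap L R (a * a') * s ^ ((i : ℕ) + i') := by
    rw [hxe, hxe', map_mul, pow_add]; ring
  by_cases hi : (i : ℕ) + i' < m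
  · refine ⟨⟨(i : ℕ) + i', hi⟩, a * a', mul_ne_zero h0 h0', ?_, ?_⟩
    · rw [P.ord_mul a a' h0 h0', ← h1, ← h1']
      push_cast
      ring
    · rw [Fin.val_mk, ← hxx]
      exact hw
  · rw [not_lt] at hi
    have := i.2
    have := i'.2
    refine ⟨⟨(i : ℕ) + i' - m, by omega⟩, a * a' * t, mul_ne_zero (mul_ne_zero h0 h0') ht, ?_, ?_⟩
    · rw [P.ord_mul _ t (mul_ne_zero h0 h0') ht, P.ord_mul a a' h0 h0', ← h1, ← h1']
      push_cast [hi]
      ring
    · have h3 : x * x' = algebraMap L R (a * a' * t) * s ^ ((i : ℕ) + i' - m) := by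
        rw [hxx, map_mul _ _ t, ← hs, mul_assoc, ← pow_add, Nat.add_sub_cancel' hi]
      rw [Fin.val_mk, ← h3]
      exact hw

theorem mul_ne (hc : IsCoprime (P.ord t) (m : ℤ)) {z z' : R} (hz : z ≠ 0) (hz' : z' ≠ 0) :
    z * z' ≠ 0 := by
  obtain ⟨n, i, a, h⟩ := lt_exists hb hc hz
  obtain ⟨n', i', a', h'⟩ := lt_exists hb hc hz'
  obtain ⟨i'', a'', h''⟩ := lt_mul hb hs ht h h'
  exact lt_ne hb h''

end main

section field

variable {k L R : Type} [Field k] [Field L] [Algebra k L] [Field R] [Algebra L R] [Algebra k R]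
  [IsScalarTower k L R] (P : Place k L) (t : L) {m : ℕ} (s : R) (b : Module.Basis (Fin m) L R)

open Classical in
/-- the value -/
noncomputable def vv (z : R) : ℤ :=
  if h : ∃ (n : ℤ) (i : Fin m) (a : L), LT P t s b n z i a then h.choose else 0

variable {P t s b}

theorem vv_spec (hb : ∀ i, b i = s ^ (i : ℕ)) (hc : IsCoprime (P.ord t) (m : ℤ)) {z : R}
    (hz : z ≠ 0) : ∃ (i : Fin m) (a : L), LT P t s b (vv P t s b z) z i a := by
  have h := lt_exists hb hc hz
  rw [vv, dif_pos h]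
  exact h.choose_spec

theorem vv_eq (hb : ∀ i, b i = s ^ (i : ℕ)) (hc : IsCoprime (P.ord t) (m : ℤ)) {z : R} {n : ℤ}
    {i : Fin m} {a : L} (h : LT P t s b n z i a) : vv P t s b z = n := by
  obtain ⟨i', a', h'⟩ := vv_spec hb hc (lt_ne hb h)
  exact lt_unique hb h' h

theorem lt_self {i : Fin m} {a : L} (ha : a ≠ 0) :
    LT P t s b ((m : ℤ) * P.ord a + (i : ℕ) * P.ord t) (algebraMap L R a * s ^ (i : ℕ)) i a :=
  ⟨ha, rfl, by rw [sub_self]; exact w_zero _⟩

theorem lt_map (hm : 0 < m) {a : L} (ha : a ≠ 0) :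
    LT P t s b ((m : ℤ) * P.ord a) (algebraMap L R a) ⟨0, hm⟩ a := by
  have h := lt_self (P := P) (t := t) (s := s) (b := b) (i := ⟨0, hm⟩) ha
  simpa using h

/-- the place of `L(s)` -/
noncomputable def place (hb : ∀ i, b i = s ^ (i : ℕ)) (hs : s ^ m = algebraMap L R t)
    (ht : t ≠ 0) (hm : 0 < m) (hc : IsCoprime (P.ord t) (m : ℤ)) : Place k R where
  ord := vv P t s b
  ord_mul x y hx hy := by
    obtain ⟨i, a, h⟩ := vv_spec hb hc hx
    obtain ⟨i', a', h'⟩ := vv_spec hb hc hy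
    obtain ⟨i'', a'', h''⟩ := lt_mul hb hs ht h h'
    exact vv_eq hb hc h''
  ord_add x y hx hy hxy := by
    obtain ⟨i, a, h⟩ := vv_spec hb hc hx
    obtain ⟨i', a', h'⟩ := vv_spec hb hc hy
    obtain ⟨i'', a'', h''⟩ := vv_spec hb hc hxy
    exact lt_le hb h'' (w_add (w_mono (lt_w hb h) (min_le_left _ _))
      (w_mono (lt_w hb h') (min_le_right _ _)))
  ord_surj := by
    obtain ⟨A, B, hAB⟩ := hc
    have hm' : (0 : ℤ) < m := by exact_mod_cast hm
    have h1 : 0 ≤ A % m := Int.emod_nonneg _ hm'.ne'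
    have h2 : A % m < m := Int.emod_lt_of_pos _ hm'
    have h3 := Int.emod_add_mul_ediv A m
    obtain ⟨i, hi⟩ : ∃ i : Fin m, ((i : ℕ) : ℤ) = A % m :=
      ⟨⟨(A % m).toNat, by omega⟩, by simp [h1]⟩
    have h4 := lt_self (P := P) (t := t) (s := s) (b := b) (i := i)
      (zpow_ne_zero (B + (A / m) * P.ord t) P.pi_ne)
    have h5 : (m : ℤ) * P.ord (P.pi ^ (B + (A / m) * P.ord t)) + (i : ℕ) * P.ord t = 1 := by
      rw [P.ord_zpow P.pi_ne, P.ord_pi, hi]
      linear_combination hAB + P.ord t * h3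
    rw [h5] at h4
    exact ⟨_, lt_ne hb h4, vv_eq hb ⟨A, B, hAB⟩ h4⟩
  ord_const c hc0 := by
    have h0 : algebraMap k L c ≠ 0 := by simpa using hc0
    have h1 := lt_map (P := P) (t := t) (s := s) (b := b) hm h0
    rw [← IsScalarTower.algebraMap_apply, P.ord_const c hc0, mul_zero] at h1
    exact vv_eq hb hc h1
  residue x hx h0 := by
    obtain ⟨i, a, h⟩ := vv_spec hb hc hx
    rcases h0.lt_or_eq with h1 | h1
    · exact ⟨0, Or.inr (by rwa [map_zero, sub_zero])⟩
    rw [← h1] at h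
    obtain ⟨ha, hv, hw⟩ := h
    have h2 : (m : ℤ) ∣ ((i : ℕ) : ℤ) * P.ord t := ⟨-P.ord a, by linear_combination hv⟩
    have h3 : (m : ℤ) ∣ ((i : ℕ) : ℤ) := hc.symm.dvd_of_dvd_mul_right h2
    have h4 : (i : ℕ) = 0 := Nat.eq_zero_of_dvd_of_lt (Int.natCast_dvd_natCast.1 h3) i.2
    have hm' : (0 : ℤ) < m := by exact_mod_cast hm
    rw [h4] at hv hw
    have h5 : P.ord a = 0 := by
      rw [Nat.cast_zero, zero_mul, add_zero] at hv
      exact (mul_eq_zero.1 hv).resolve_left hm'.ne'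
    obtain ⟨c, h6⟩ := P.residue a ha h5.ge
    have h7 : Gm P t m 0 1 (a - algebraMap k L c) := by
      rcases h6 with h6 | h6
      · exact Or.inl (by rw [sub_eq_zero]; exact h6)
      · refine Or.inr ?_
        rw [Nat.cast_zero, zero_mul, add_zero]
        nlinarith
    have h8 : W P t b 1 (x - algebraMap k R c) := by
      have e1 : x - algebraMap k R c = (x - algebraMap L R a * s ^ 0) +
          algebraMap L R (a - algebraMap k L c) * s ^ 0 := by
        rw [map_sub, ← IsScalarTower.algebraMap_apply, pow_zero]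
        ring
      rw [e1]
      rw [zero_add] at hw
      exact w_add hw (w_mono1 hb hm h7)
    refine ⟨c, ?_⟩
    by_cases h9 : x = algebraMap k R c
    · exact Or.inl h9
    refine Or.inr ?_
    obtain ⟨i', a', h'⟩ := vv_spec hb hc (sub_ne_zero.2 h9)
    exact lt_le hb h' h8

theorem field_case (hb : ∀ i, b i = s ^ (i : ℕ)) (hs : s ^ m = algebraMap L R t)
    (ht : t ≠ 0) (hm : 0 < m) (hc : IsCoprime (P.ord t) (m : ℤ)) :
    ∃ P' : Place k R, PB m t P (IsScalarTower.toAlgHom k L R) s P' := by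
  have h1 : ∀ z : L, z ≠ 0 → vv P t s b (algebraMap L R z) = m * P.ord z := fun z hz =>
    vv_eq hb hc (lt_map hm hz)
  have hm' : (m : ℤ) ≠ 0 := by exact_mod_cast hm.ne'
  refine ⟨place hb hs ht hm hc, ?_, ?_, ?_, ?_, ?_⟩
  · exact hs
  · exact h1
  · have hs0 : s ≠ 0 := by
      intro h0
      rw [h0, zero_pow hm.ne'] at hs
      exact ht (by simpa using hs.symm)
    have h2 := (place (P := P) hb hs ht hm hc).ord_pow hs0 m
    rw [hs] at h2
    have h3 : (place (P := P) hb hs ht hm hc).ord (algebraMap L R t) = m * P.ord t := h1 t ht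
    rw [h3] at h2
    exact (mul_left_cancel₀ hm' h2).symm
  · intro z
    exact ⟨fun i => b.repr z i, expand hb z⟩
  · intro c h
    have h2 := Fintype.linearIndependent_iff.1 b.linearIndependent c
    apply h2
    rw [← h]
    refine sum_congr rfl fun i _ => ?_
    rw [Algebra.smul_def, hb]
    rfl

end field

end PU1

theorem pu1_thm : S_PU1 := by
  intro k L _ _ _ P t m hm ht hc
  have hm0 : m ≠ 0 := by omega
  have hf : (X ^ m - C t : L[X]).Monic := monic_X_pow_sub_C t hm0
  have hd : (X ^ m - C t : L[X]).natDegree = m := natDegree_X_pow_sub_C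
  obtain ⟨f, hfe⟩ : ∃ f : L[X], f = X ^ m - C t := ⟨_, rfl⟩
  rw [← hfe] at hf hd
  have hs : (AdjoinRoot.root f) ^ m = algebraMap L (AdjoinRoot f) t := by
    have h0 := AdjoinRoot.eval₂_root f
    have h1 : eval₂ (AdjoinRoot.of f) (AdjoinRoot.root f) (X ^ m - C t) = 0 := by
      rw [← hfe]; exact h0
    rw [eval₂_sub, eval₂_X_pow, eval₂_C] at h1
    have h2 := sub_eq_zero.1 h1
    exact h2
  obtain ⟨b, hb⟩ : ∃ b : Module.Basis (Fin m) L (AdjoinRoot f), ∀ i, b i = (AdjoinRoot.root f) ^ (i : ℕ) := by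
    refine ⟨(AdjoinRoot.powerBasis' hf).basis.reindex (finCongr hd), fun i => ?_⟩
    rw [Module.Basis.reindex_apply, PowerBasis.basis_eq_pow]
    rfl
  have hdom : IsDomain (AdjoinRoot f) := by
    haveI : Nontrivial (AdjoinRoot f) := by
      apply AdjoinRoot.nontrivial
      intro h0
      have h2 : f.natDegree = 0 := natDegree_eq_zero_iff_degree_le_zero.2 h0.le
      exact hm0 (hd ▸ h2)
    haveI : NoZeroDivisors (AdjoinRoot f) := ⟨fun {z z'} h => by
      by_contra hc'
      rw [not_or] at hc'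
      exact PU1.mul_ne (P := P) hb hs ht hc hc'.1 hc'.2 h⟩
    exact NoZeroDivisors.to_isDomain _
  have hirr : Irreducible f := by
    have h1 : (Ideal.span ({f} : Set L[X])).IsPrime := (Ideal.Quotient.isDomain_iff_prime _).1 hdom
    exact ((Ideal.span_singleton_prime hf.ne_zero).1 h1).irreducible
  haveI : Fact (Irreducible f) := ⟨hirr⟩
  obtain ⟨P', hP'⟩ := PU1.field_case (R := AdjoinRoot f) (P := P) hb hs ht (by omega) hc
  exact ⟨AdjoinRoot f, inferInstance, inferInstance, _, _, P', hP'⟩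

end Pool.CND
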